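import Pool.Agent.Helper54.DI.StmtsA

namespace Pool.Agent.Helper74.DI

open Finset Filter Topology Pool.Agent.Helper54.DI

theorem line_deriv {d : ℕ} {G : (Fin d → ℝ) → ℝ} {x : Fin d → ℝ} (h : ContDiffAt ℝ 3 G x)
    (u : Fin d → ℝ) : HasDerivAt (fun t : ℝ => G (x + t • u)) (fderiv ℝ G x u) 0 := by
  have h1 : HasFDerivAt G (fderiv ℝ G x) (x + (0 : ℝ) • u) := by
    rw [zero_smul, add_zero]
    exact (h.differentiableAt (by norm_num)).hasFDerivAt
  have h2 : HasDerivAt (fun t : ℝ => x + t • u) u 0 := by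
    have := ((hasDerivAt_id (0 : ℝ)).smul_const u).const_add x
    rwa [one_smul] at this
  exact h1.comp_hasDerivAt (0 : ℝ) h2

theorem line_deriv2 {d : ℕ} {G : (Fin d → ℝ) → ℝ} {x : Fin d → ℝ} (h : ContDiffAt ℝ 3 G x)
    (u : Fin d → ℝ) : HasDerivAt (fun t : ℝ => fderiv ℝ G (x + t • u) u)
      (fderiv ℝ (fderiv ℝ G) x u u) 0 := by
  have h0 : ContDiffAt ℝ 2 (fderiv ℝ G) x := h.fderiv_right (by norm_num)
  have h1 : HasFDerivAt (fderiv ℝ G) (fderiv ℝ (fderiv ℝ G) x) (x + (0 : ℝ) • u) := by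
    rw [zero_smul, add_zero]
    exact (h0.differentiableAt (by norm_num)).hasFDerivAt
  have h2 : HasDerivAt (fun t : ℝ => x + t • u) u 0 := by
    have := ((hasDerivAt_id (0 : ℝ)).smul_const u).const_add x
    rwa [one_smul] at this
  have h3 := h1.comp_hasDerivAt (0 : ℝ) h2
  have h4 := h3.clm_apply (hasDerivAt_const (0 : ℝ) u)
  simpa using h4

theorem line_shift {d : ℕ} (x u : Fin d → ℝ) (s t : ℝ) : x + (s + t) • u = (x + s • u) + t • u := by
  rw [add_smul, add_assoc]

/-- derivative at an arbitrary parameter -/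
theorem line_deriv_at {d : ℕ} {G : (Fin d → ℝ) → ℝ} {x : Fin d → ℝ} (u : Fin d → ℝ) (s : ℝ)
    (h : ContDiffAt ℝ 3 G (x + s • u)) :
    HasDerivAt (fun t : ℝ => G (x + t • u)) (fderiv ℝ G (x + s • u) u) s := by
  have h1 := line_deriv h u
  have h2 : HasDerivAt (fun t : ℝ => t - s) 1 s := (hasDerivAt_id s).sub_const s
  have h3 := HasDerivAt.comp (h₂ := fun t : ℝ => G (x + s • u + t • u)) s
    (by rw [sub_self]; exact h1) h2
  rw [mul_one] at h3
  refine h3.congr_of_eventuallyEq (Eventually.of_forall fun t => ?_)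
  show G (x + t • u) = G (x + s • u + (t - s) • u)
  rw [← line_shift, add_sub_cancel]

theorem line_deriv2_at {d : ℕ} {G : (Fin d → ℝ) → ℝ} {x : Fin d → ℝ} (u : Fin d → ℝ) (s : ℝ)
    (h : ContDiffAt ℝ 3 G (x + s • u)) :
    HasDerivAt (fun t : ℝ => fderiv ℝ G (x + t • u) u)
      (fderiv ℝ (fderiv ℝ G) (x + s • u) u u) s := by
  have h1 := line_deriv2 h u
  have h2 : HasDerivAt (fun t : ℝ => t - s) 1 s := (hasDerivAt_id s).sub_const s
  have h3 := HasDerivAt.comp (h₂ := fun t : ℝ => fderiv ℝ G (x + s • u + t • u) u) s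
    (by rw [sub_self]; exact h1) h2
  rw [mul_one] at h3
  refine h3.congr_of_eventuallyEq (Eventually.of_forall fun t => ?_)
  show fderiv ℝ G (x + t • u) u = fderiv ℝ G (x + s • u + (t - s) • u) u
  rw [← line_shift, add_sub_cancel]

theorem iter2_line {d : ℕ} {G : (Fin d → ℝ) → ℝ} {x : Fin d → ℝ} (h : ContDiffAt ℝ 3 G x)
    (u : Fin d → ℝ) : iteratedDeriv 2 (fun t : ℝ => G (x + t • u)) 0 =
      fderiv ℝ (fderiv ℝ G) x u u := by
  have h1 : ∀ᶠ t in 𝓝 (0 : ℝ), deriv (fun t : ℝ => G (x + t • u)) t = fderiv ℝ G (x + t • u) u := by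
    have hev : ∀ᶠ y in 𝓝 x, ContDiffAt ℝ 3 G y := h.eventually (by norm_num)
    have hc : Tendsto (fun t : ℝ => x + t • u) (𝓝 0) (𝓝 x) := by
      have : ContinuousAt (fun t : ℝ => x + t • u) 0 := by fun_prop
      simpa [ContinuousAt] using this
    filter_upwards [hc.eventually hev] with t ht
    exact (line_deriv_at u t ht).deriv
  rw [iteratedDeriv_succ, iteratedDeriv_one]
  have h2 : deriv (deriv fun t : ℝ => G (x + t • u)) 0 =
      deriv (fun t : ℝ => fderiv ℝ G (x + t • u) u) 0 := Filter.EventuallyEq.deriv_eq h1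
  rw [h2]
  exact (line_deriv2 h u).deriv

theorem rat_dense {d : ℕ} : DenseRange (fun y : Fin d → ℚ => (fun i => (y i : ℝ))) := by
  have h : DenseRange (Pi.map (fun (_ : Fin d) (q : ℚ) => (q : ℝ))) :=
    DenseRange.piMap (fun _ => Rat.denseRange_cast)
  exact h

theorem st_DIR : ST_DIR := by
  intro d G w hG hna U hU
  by_contra hcon
  apply hna
  have hev : ∀ᶠ y in 𝓝 w, ContDiffAt ℝ 3 G y := hG.eventually (by norm_num)
  obtain ⟨r, hr, hball⟩ := Metric.eventually_nhds_iff_ball.1 (hev.and hU)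
  have hz : ∀ y u : Fin d → ℚ, (fun i => (y i : ℝ)) ∈ Metric.ball w r →
      fderiv ℝ (fderiv ℝ G) (fun i => (y i : ℝ)) (fun i => (u i : ℝ)) (fun i => (u i : ℝ)) = 0 := by
    intro y u hy
    by_contra hne
    apply hcon
    have hC := (hball _ hy).1
    refine ⟨y, u, (hball _ hy).2, ?_, ?_⟩
    · have h1 : ContDiffAt ℝ 3 G ((fun i => (y i : ℝ)) + (0 : ℝ) • (fun i => (u i : ℝ))) := by
        rw [zero_smul, add_zero]; exact hC
      have h2 : ContDiffAt ℝ 3 (fun t : ℝ => (fun i => (y i : ℝ)) + t • (fun i => (u i : ℝ))) 0 := by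
        fun_prop
      exact ContDiffAt.comp (0 : ℝ) h1 h2
    · have h1 := iter2_line hC (fun i => (u i : ℝ))
      have h2 : (fun t : ℝ => G (fun i => (y i : ℝ) + t * u i)) =
          fun t : ℝ => G ((fun i => (y i : ℝ)) + t • (fun i => (u i : ℝ))) := by
        funext t; rfl
      rw [h2, h1]
      exact hne
  -- continuity of the second derivative
  have hcont : ∀ x ∈ Metric.ball w r, ContinuousAt (fderiv ℝ (fderiv ℝ G)) x := by
    intro x hx
    have h0 : ContDiffAt ℝ 2 (fderiv ℝ G) x := (hball x hx).1.fderiv_right (by norm_num)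
    exact (h0.fderiv_right (m := 1) (by norm_num)).continuousAt
  have hz2 : ∀ (u : Fin d → ℚ), ∀ x ∈ Metric.ball w r,
      fderiv ℝ (fderiv ℝ G) x (fun i => (u i : ℝ)) (fun i => (u i : ℝ)) = 0 := by
    intro u x hx
    by_contra hne
    have hc : ContinuousAt (fun x => fderiv ℝ (fderiv ℝ G) x (fun i => (u i : ℝ))
        (fun i => (u i : ℝ))) x := by
      have := hcont x hx
      exact (this.clm_apply continuousAt_const).clm_apply continuousAt_const
    have h1 : ∀ᶠ z in 𝓝 x, fderiv ℝ (fderiv ℝ G) z (fun i => (u i : ℝ)) (fun i => (u i : ℝ)) ≠ 0 :=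
      hc.eventually_ne hne
    have h2 : ∀ᶠ z in 𝓝 x, z ∈ Metric.ball w r := Metric.isOpen_ball.mem_nhds hx
    obtain ⟨ε, hε, hb⟩ := Metric.eventually_nhds_iff_ball.1 (h1.and h2)
    obtain ⟨y, hy⟩ := rat_dense.exists_mem_open Metric.isOpen_ball
      ⟨x, Metric.mem_ball_self hε⟩ (s := Metric.ball x ε)
    exact (hb _ hy).1 (hz y u (hb _ hy).2)
  have hz3 : ∀ x ∈ Metric.ball w r, ∀ u : Fin d → ℝ, fderiv ℝ (fderiv ℝ G) x u u = 0 := by
    intro x hx u
    have hc : Continuous (fun u : Fin d → ℝ => fderiv ℝ (fderiv ℝ G) x u u) := by fun_prop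
    have h1 := rat_dense (d := d).equalizer hc (continuous_const (y := (0 : ℝ)))
      (by funext v; exact hz2 v x hx)
    exact congrFun h1 u
  refine ⟨fun i => fderiv ℝ G w (Pi.single i 1), G w - fderiv ℝ G w w, ?_⟩
  rw [Metric.eventually_nhds_iff_ball]
  refine ⟨r, hr, fun x hx => ?_⟩
  have hmem : ∀ t ∈ Set.Icc (0 : ℝ) 1, w + t • (x - w) ∈ Metric.ball w r := by
    intro t ht
    rw [Metric.mem_ball, dist_eq_norm, add_sub_cancel_left, norm_smul, Real.norm_of_nonneg ht.1]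
    rw [Metric.mem_ball, dist_eq_norm] at hx
    calc t * ‖x - w‖ ≤ 1 * ‖x - w‖ := mul_le_mul_of_nonneg_right ht.2 (norm_nonneg _)
      _ < r := by rw [one_mul]; exact hx
  have hF : ∀ t ∈ Set.Icc (0 : ℝ) 1, fderiv ℝ G (w + t • (x - w)) (x - w) =
      fderiv ℝ G w (x - w) := by
    intro t ht
    have hconst := constant_of_derivWithin_zero
      (f := fun t : ℝ => fderiv ℝ G (w + t • (x - w)) (x - w)) (a := 0) (b := 1)
      (fun s hs => (line_deriv2_at (x - w) s ((hball _ (hmem s hs)).1)).differentiableAt.differentiableWithinAt)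
      (fun s hs => by
        have hs' : s ∈ Set.Icc (0 : ℝ) 1 := ⟨hs.1, hs.2.le⟩
        have h1 := line_deriv2_at (x - w) s ((hball _ (hmem s hs')).1)
        rw [hz3 _ (hmem s hs')] at h1
        exact h1.hasDerivWithinAt.derivWithin ((uniqueDiffOn_Icc_zero_one) s hs'))
      t ht
    simpa using hconst
  have hconst := constant_of_derivWithin_zero
    (f := fun t : ℝ => G (w + t • (x - w)) - t * fderiv ℝ G w (x - w)) (a := 0) (b := 1)
    (fun s hs => ((line_deriv_at (x - w) s ((hball _ (hmem s hs)).1)).sub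
      ((hasDerivAt_id s).mul_const _)).differentiableAt.differentiableWithinAt)
    (fun s hs => by
      have hs' : s ∈ Set.Icc (0 : ℝ) 1 := ⟨hs.1, hs.2.le⟩
      have h1 := (line_deriv_at (x - w) s ((hball _ (hmem s hs')).1)).sub
        ((hasDerivAt_id s).mul_const (fderiv ℝ G w (x - w)))
      rw [hF s hs', one_mul, sub_self] at h1
      exact h1.hasDerivWithinAt.derivWithin ((uniqueDiffOn_Icc_zero_one) s hs'))
    1 ⟨zero_le_one, le_rfl⟩
  have h1 : G x = G w + fderiv ℝ G w (x - w) := by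
    have h2 : w + (1 : ℝ) • (x - w) = x := by rw [one_smul]; abel
    have h3 : w + (0 : ℝ) • (x - w) = w := by rw [zero_smul, add_zero]
    have h4 : G (w + (1 : ℝ) • (x - w)) - 1 * fderiv ℝ G w (x - w) =
      G (w + (0 : ℝ) • (x - w)) - 0 * fderiv ℝ G w (x - w) := hconst
    rw [h2, h3] at h4
    linarith
  rw [h1, map_sub]
  have h5 : fderiv ℝ G w x = ∑ i, fderiv ℝ G w (Pi.single i 1) * x i := by
    conv_lhs => rw [← Finset.univ_sum_single x]
    rw [map_sum]
    refine Finset.sum_congr rfl fun i _ => ?_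
    have : (Pi.single i (x i) : Fin d → ℝ) = x i • Pi.single i (1 : ℝ) := by
      rw [← Pi.single_smul, smul_eq_mul, mul_one]
    rw [this, map_smul, smul_eq_mul, mul_comm]
  rw [h5]
  ring

end Pool.Agent.Helper74.DI
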