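import Pool.Agent.Helper54.DI.StmtsB

namespace Pool.Agent.Helper74.DI

open Finset Filter Topology Pool.Agent.Helper54.ETR Pool.Agent.Helper54.Poly
open Pool.Agent.Helper54.DI

/-- substitution -/
def sbt (τ : ℕ → Term) : Term → Term
  | Term.zero => Term.zero
  | Term.one => Term.one
  | Term.var i => τ i
  | Term.add s t => Term.add (sbt τ s) (sbt τ t)
  | Term.sub s t => Term.sub (sbt τ s) (sbt τ t)
  | Term.mul s t => Term.mul (sbt τ s) (sbt τ t)

theorem sbt_ev (τ : ℕ → Term) (x : ℕ → ℝ) (t : Term) :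
    (sbt τ t).ev x = t.ev (fun i => (τ i).ev x) := by
  induction t with
  | zero => rfl
  | one => rfl
  | var i => rfl
  | add s t ihs iht => simp only [sbt, Term.ev, ihs, iht]
  | sub s t ihs iht => simp only [sbt, Term.ev, ihs, iht]
  | mul s t ihs iht => simp only [sbt, Term.ev, ihs, iht]

theorem eval_ev (x : ℕ → ℝ) (t : Term) : t.eval x = t.ev x := by
  induction t with
  | zero => rfl
  | one => rfl
  | var i => rfl
  | add s t ihs iht => simp only [Term.eval, Term.ev, ihs, iht]
  | sub s t ihs iht => simp only [Term.eval, Term.ev, ihs, iht]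
  | mul s t ihs iht => simp only [Term.eval, Term.ev, ihs, iht]

/-- the substituted variable -/
def tau (i : ℕ) : Term := Term.mul (Term.var 0) (Term.var (1 + i))

theorem sbt_occ (n : ℕ) (t : Term) (h : t.Below n) (i : ℕ) (hi : (sbt tau t).Occ i) :
    i = 0 ∨ ∃ j < n, i = 1 + j := by
  induction t with
  | zero => exact hi.elim
  | one => exact hi.elim
  | var j =>
    simp only [sbt, tau, Term.Occ] at hi
    rcases hi with hi | hi
    · exact Or.inl hi.symm
    · exact Or.inr ⟨j, h, hi.symm⟩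
  | add s t ihs iht => exact hi.elim (ihs h.1) (iht h.2)
  | sub s t ihs iht => exact hi.elim (ihs h.1) (iht h.2)
  | mul s t ihs iht => exact hi.elim (ihs h.1) (iht h.2)

/-- sum of squares of the scaled equations -/
def FF : List Term → Term
  | [] => Term.zero
  | e :: l => Term.add (Term.mul (sbt tau e) (sbt tau e)) (FF l)

theorem basic_nd (e : Term) (h : Basic e) : (sbt tau e).nd ≤ 11 := by
  rcases h with ⟨i, rfl⟩ | ⟨i, j, k, rfl⟩ | ⟨i, j, k, rfl⟩ <;>
    simp [gOne, gAdd, gMul, sbt, tau, Term.nd]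

theorem FF_nd (E : List Term) (h : ∀ e ∈ E, Basic e) : (FF E).nd ≤ 24 * E.length + 4 := by
  induction E with
  | nil => simp [FF, Term.nd]
  | cons e l ih =>
    have h1 := basic_nd e (h e List.mem_cons_self)
    have h2 := ih fun e he => h e (List.mem_cons_of_mem _ he)
    simp only [FF, Term.nd, List.length_cons]
    omega

theorem FF_ev (E : List Term) (x : ℕ → ℝ) :
    (FF E).ev x = (E.map fun e => (e.eval fun i => x 0 * x (1 + i)) ^ 2).sum := by
  induction E with
  | nil => rfl
  | cons e l ih =>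
    simp only [FF, Term.ev, List.map_cons, List.sum_cons, ih, sbt_ev, eval_ev, tau]
    ring

theorem FF_occ (n : ℕ) (E : List Term) (h : ∀ e ∈ E, e.Below n) (i : ℕ) (hi : (FF E).Occ i) :
    i = 0 ∨ ∃ j < n, i = 1 + j := by
  induction E with
  | nil => exact hi.elim
  | cons e l ih =>
    rcases hi with (hi | hi) | hi
    · exact sbt_occ n e (h e List.mem_cons_self) i hi
    · exact sbt_occ n e (h e List.mem_cons_self) i hi
    · exact ih (fun e he => h e (List.mem_cons_of_mem _ he)) hi

theorem sum_sq_nonneg (E : List Term) (x : ℕ → ℝ) :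
    0 ≤ (E.map fun e => (e.eval x) ^ 2).sum :=
  List.sum_nonneg fun a ha => by
    obtain ⟨e, _, rfl⟩ := List.mem_map.1 ha
    exact sq_nonneg _

theorem sum_sq_zero (E : List Term) (x : ℕ → ℝ) (h : (E.map fun e => (e.eval x) ^ 2).sum = 0) :
    ∀ e ∈ E, e.eval x = 0 := by
  induction E with
  | nil => simp
  | cons e l ih =>
    rw [List.map_cons, List.sum_cons] at h
    have h1 := sq_nonneg (e.eval x)
    have h2 := sum_sq_nonneg l x
    intro e' he'
    rcases List.mem_cons.1 he' with rfl | he'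
    · exact pow_eq_zero_iff (two_ne_zero) |>.1 (by linarith)
    · exact ih (by linarith) e' he'

theorem sum_sq_of_zero (E : List Term) (x : ℕ → ℝ) (h : ∀ e ∈ E, e.eval x = 0) :
    (E.map fun e => (e.eval x) ^ 2).sum = 0 := by
  induction E with
  | nil => rfl
  | cons e l ih =>
    rw [List.map_cons, List.sum_cons, h e List.mem_cons_self,
      ih fun e he => h e (List.mem_cons_of_mem _ he)]
    norm_num

theorem eval_congr (n : ℕ) (x y : ℕ → ℝ) (h : ∀ i < n, x i = y i) (t : Term) (ht : t.Below n) :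
    t.eval x = t.eval y := by
  rw [eval_ev, eval_ev]
  exact ev_congr x y t fun i hi => h i ((below_iff n t).1 ht i hi)

theorem st_BG : ST_BG := by
  intro E hB hL
  refine ⟨?_, ?_⟩
  · rintro ⟨x, hx⟩
    obtain ⟨y, hy1, hy2, hy3⟩ := ball 1 0 E.length (by norm_num) (FF E) (24 * E.length + 4)
      (FF_nd E hB) (by omega) (FF_occ E.length E hL)
      (fun x => by rw [FF_ev]; exact sum_sq_nonneg E _)
      (fun i => if i = 0 then 1 else x (i - 1)) (by simp)
      (by
        rw [FF_ev]
        apply sum_sq_of_zero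
        intro e he
        have : (fun i => (if (0 : ℕ) = 0 then (1 : ℝ) else x (0 - 1)) *
            (if 1 + i = 0 then 1 else x (1 + i - 1))) = x := by
          funext i
          rw [if_pos rfl, if_neg (by omega), one_mul, Nat.add_sub_cancel_left]
        rw [this]
        exact hx e he)
    refine ⟨fun i => y (1 + i), ?_, ?_⟩
    · rw [FF_ev] at hy2
      have := sum_sq_zero E _ hy2
      simp only [hy1, one_mul] at this
      exact this
    · intro i hi
      have h1 : y (1 + i) ^ 2 ≤ 2 ^ 2 ^ Qb (24 * E.length + 4) E.length :=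
        (Finset.single_le_sum (f := fun j => y (1 + j) ^ 2) (fun _ _ => sq_nonneg _)
          (Finset.mem_range.2 hi)).trans hy3
      have h2 : (1 : ℝ) ≤ 2 ^ 2 ^ QB E.length := one_le_pow₀ (by norm_num)
      have h3 : |y (1 + i)| ^ 2 ≤ 2 ^ 2 ^ QB E.length := by rw [sq_abs]; exact h1
      by_contra hcon
      push Not at hcon
      nlinarith
  · intro hE a x hx
    set n := E.length with hn
    have hr : ((2 ^ 2 ^ (a + n) : ℕ) : ℝ) = 2 ^ 2 ^ (a + n) := by push_cast; rfl
    have hr0 : (0 : ℝ) < 2 ^ 2 ^ (a + n) := by positivity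
    have key : (2 : ℝ) ^ 2 ^ a * n ≤ 2 ^ 2 ^ (a + n) := by
      have h1 : 2 ^ a + n ≤ 2 ^ (a + n) := by
        rw [pow_add]
        have h2 : n + 1 ≤ 2 ^ n := Nat.lt_two_pow_self
        have h3 : 1 ≤ 2 ^ a := Nat.one_le_two_pow
        nlinarith
      calc (2 : ℝ) ^ 2 ^ a * n ≤ 2 ^ 2 ^ a * 2 ^ n := by
            gcongr
            exact_mod_cast (Nat.lt_two_pow_self (n := n)).le
        _ = 2 ^ (2 ^ a + n) := by rw [pow_add]
        _ ≤ 2 ^ 2 ^ (a + n) := pow_le_pow_right₀ (by norm_num) h1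
    have hg := gap 1 0 n (2 ^ 2 ^ (a + n)) (by norm_num) (FF E) (24 * n + 4) (a + n)
      (by
        calc 2 = 2 ^ 1 := by norm_num
          _ ≤ 2 ^ 2 ^ (a + n) := Nat.pow_le_pow_right (by norm_num) Nat.one_le_two_pow)
      le_rfl (FF_nd E hB) (by omega) (FF_occ n E hL)
      (fun y hy => by
        rw [FF_ev]
        refine lt_of_le_of_ne (sum_sq_nonneg E _) fun h0 => hE ?_
        exact ⟨_, sum_sq_zero E _ h0.symm⟩)
      (fun i => if i = 0 then ((2 ^ 2 ^ (a + n) : ℕ) : ℝ) else
        if i - 1 < n then x (i - 1) / ((2 ^ 2 ^ (a + n) : ℕ) : ℝ) else 0)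
      (by simp)
      (by
        have h1 : ∀ j ∈ range n, ((if 1 + j = 0 then ((2 ^ 2 ^ (a + n) : ℕ) : ℝ) else
            if 1 + j - 1 < n then x (1 + j - 1) / ((2 ^ 2 ^ (a + n) : ℕ) : ℝ) else 0)) ^ 2 ≤
            (2 ^ 2 ^ a / 2 ^ 2 ^ (a + n)) ^ 2 := by
          intro j hj
          have hj' := Finset.mem_range.1 hj
          rw [if_neg (by omega), if_pos (by omega), Nat.add_sub_cancel_left, hr]
          have h2 := hx j hj'
          rw [div_pow, div_pow]
          apply div_le_div_of_nonneg_right _ (by positivity)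
          rw [← sq_abs]
          exact pow_le_pow_left₀ (abs_nonneg _) h2 2
        refine (Finset.sum_le_sum h1).trans ?_
        rw [Finset.sum_const, Finset.card_range, nsmul_eq_mul]
        rcases Nat.eq_zero_or_pos n with h0 | h0
        · rw [h0]; norm_num
        · have hn1 : (1 : ℝ) ≤ n := by exact_mod_cast h0
          have h3 : (2 : ℝ) ^ 2 ^ a / 2 ^ 2 ^ (a + n) ≤ 1 / n := by
            rw [div_le_div_iff₀ hr0 (by linarith)]
            linarith [key]
          have h4 : (0 : ℝ) ≤ 2 ^ 2 ^ a / 2 ^ 2 ^ (a + n) := by positivity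
          calc (n : ℝ) * ((2 : ℝ) ^ 2 ^ a / 2 ^ 2 ^ (a + n)) ^ 2 ≤ (n : ℝ) * ((1 : ℝ) / n) ^ 2 :=
                mul_le_mul_of_nonneg_left (pow_le_pow_left₀ h4 h3 2) (by linarith)
            _ = (1 : ℝ) / n := by field_simp
            _ ≤ 1 := by rw [div_le_one (by linarith)]; exact hn1
            _ ≤ 4 := by norm_num)
    rw [FF_ev] at hg
    have hcongr : (E.map fun e => (e.eval fun i => (if (0 : ℕ) = 0 then
        ((2 ^ 2 ^ (a + n) : ℕ) : ℝ) else if (0 : ℕ) - 1 < n then
        x (0 - 1) / ((2 ^ 2 ^ (a + n) : ℕ) : ℝ) else 0) * (if 1 + i = 0 then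
        ((2 ^ 2 ^ (a + n) : ℕ) : ℝ) else if 1 + i - 1 < n then
        x (1 + i - 1) / ((2 ^ 2 ^ (a + n) : ℕ) : ℝ) else 0)) ^ 2) =
        E.map fun e => (e.eval x) ^ 2 := by
      apply List.map_congr_left
      intro e he
      rw [eval_congr n _ x _ e (hL e he)]
      intro i hi
      rw [if_pos rfl, if_neg (by omega), if_pos (by omega), Nat.add_sub_cancel_left, hr]
      field_simp
    rw [hcongr] at hg
    exact hg

end Pool.Agent.Helper74.DI
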